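import Pool.Agent.W78.EC.Defs4

set_option autoImplicit false

/-!
Project EC (helper78), part CORR: factorisations `d d' = n^2 + 1` and pairs of Gaussian integers.
-/

namespace Pool.Agent.W305.EC

open Finset Filter
open Pool.Agent.H376R2.MR
open Pool.Agent.W78.GA
open Pool.Agent.W78.EC

lemma hD : (0 : ℤ) ^ 2 < 4 * 1 := by norm_num

lemma nmz (z : Gi) : (nm z : ℤ) = z.re ^ 2 + z.im ^ 2 := by
  rw [nm_cast hD]
  ring

lemma ipz (v w : Gi) : ip v w = v.re * w.re + v.im * w.im := by
  unfold ip
  ring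

lemma dtz (v w : Gi) : dt v w = v.re * w.im - v.im * w.re := rfl

/-- cancellation -/
lemma cancel {x y z : Gi} (hx : x ≠ 0) (h : x * y = x * z) : y = z := by
  have h1 : x * (y - z) = 0 := by rw [mul_sub, h, sub_self]
  have h2 := congrArg nm h1
  rw [nm_mul, nm_zero] at h2
  rcases Nat.mul_eq_zero.1 h2 with h3 | h3
  · exact absurd ((nm_eq_zero hD).1 h3) hx
  · exact sub_eq_zero.1 ((nm_eq_zero hD).1 h3)

/-- existence -/
lemma exists_pair (n : ℕ) : ∀ d d' : ℕ, d * d' = n ^ 2 + 1 →
    ∃ v w : Gi, nm v = d ∧ nm w = d' ∧ dt v w = 1 ∧ ip v w = n := by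
  induction n using Nat.strong_induction_on with
  | _ n ih =>
    intro d d' h
    rcases Nat.eq_zero_or_pos n with rfl | hn
    · have h1 : d = 1 ∧ d' = 1 := by
        have : d * d' = 1 := by simpa using h
        exact ⟨Nat.eq_one_of_mul_eq_one_right this, Nat.eq_one_of_mul_eq_one_left this⟩
      refine ⟨⟨1, 0⟩, ⟨0, 1⟩, ?_, ?_, ?_, ?_⟩
      · rw [h1.1]; rfl
      · rw [h1.2]; rfl
      · rfl
      · rfl
    · have hd : 0 < d := by
        rcases Nat.eq_zero_or_pos d with rfl | h1
        · simp at h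
        · exact h1
      have hd' : 0 < d' := by
        rcases Nat.eq_zero_or_pos d' with rfl | h1
        · simp at h
        · exact h1
      have hsum : 2 * n ≤ d + d' := by
        by_contra hcon
        push Not at hcon
        have hz : (d : ℤ) * d' = n ^ 2 + 1 := by exact_mod_cast h
        have hc : (d : ℤ) + d' < 2 * n := by exact_mod_cast hcon
        nlinarith [sq_nonneg ((d : ℤ) - d')]
      obtain ⟨e, he⟩ := Nat.exists_eq_add_of_le hsum
      have hz : (d : ℤ) * d' = n ^ 2 + 1 := by exact_mod_cast h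
      have hez : (d : ℤ) + d' = 2 * n + e := by exact_mod_cast he
      by_cases hdn : d ≤ n
      · obtain ⟨m, hm⟩ := Nat.exists_eq_add_of_le hdn
        have hmz : (n : ℤ) = d + m := by exact_mod_cast hm
        have h2 : d * e = m ^ 2 + 1 := by
          have : (d : ℤ) * e = m ^ 2 + 1 := by
            have e1 : (e : ℤ) = d + d' - 2 * n := by linarith
            have e2 : (m : ℤ) = n - d := by linarith
            rw [e1, e2]
            linear_combination hz
          exact_mod_cast this
        obtain ⟨v, w, a1, a2, a3, a4⟩ := ih m (by omega) d e h2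
        have b1 := nmz v
        have b2 := nmz w
        rw [a1] at b1
        rw [a2] at b2
        rw [dtz] at a3
        rw [ipz] at a4
        refine ⟨v, w + v, a1, ?_, ?_, ?_⟩
        · have : (nm (w + v) : ℤ) = d' := by
            rw [nmz]
            simp only [QuadraticAlgebra.re_add, QuadraticAlgebra.im_add]
            linear_combination -b1 - b2 + 2 * a4 - hez - 2 * hmz
          exact_mod_cast this
        · rw [dtz]
          simp only [QuadraticAlgebra.re_add, QuadraticAlgebra.im_add]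
          linear_combination a3
        · rw [ipz]
          simp only [QuadraticAlgebra.re_add, QuadraticAlgebra.im_add]
          linear_combination a4 - b1 - hmz
      · have hdn' : d' ≤ n := by
          by_contra hcon
          push Not at hcon hdn
          have h3 : (n + 1) * (n + 1) ≤ d * d' := Nat.mul_le_mul hdn hcon
          nlinarith
        obtain ⟨m, hm⟩ := Nat.exists_eq_add_of_le hdn'
        have hmz : (n : ℤ) = d' + m := by exact_mod_cast hm
        have h2 : e * d' = m ^ 2 + 1 := by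
          have : (e : ℤ) * d' = m ^ 2 + 1 := by
            have e1 : (e : ℤ) = d + d' - 2 * n := by linarith
            have e2 : (m : ℤ) = n - d' := by linarith
            rw [e1, e2]
            linear_combination hz
          exact_mod_cast this
        obtain ⟨v, w, a1, a2, a3, a4⟩ := ih m (by omega) e d' h2
        have b1 := nmz v
        have b2 := nmz w
        rw [a1] at b1
        rw [a2] at b2
        rw [dtz] at a3
        rw [ipz] at a4
        refine ⟨v + w, w, ?_, a2, ?_, ?_⟩
        · have : (nm (v + w) : ℤ) = d := by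
            rw [nmz]
            simp only [QuadraticAlgebra.re_add, QuadraticAlgebra.im_add]
            linear_combination -b1 - b2 + 2 * a4 - hez - 2 * hmz
          exact_mod_cast this
        · rw [dtz]
          simp only [QuadraticAlgebra.re_add, QuadraticAlgebra.im_add]
          linear_combination a3
        · rw [ipz]
          simp only [QuadraticAlgebra.re_add, QuadraticAlgebra.im_add]
          linear_combination a4 - b2 - hmz

/-- the units -/
def U4 : Finset Gi := {⟨1, 0⟩, ⟨-1, 0⟩, ⟨0, 1⟩, ⟨0, -1⟩}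

lemma card_U4 : U4.card = 4 := by decide

lemma mem_U4 {u : Gi} : u ∈ U4 ↔ nm u = 1 := by
  constructor
  · intro h
    unfold U4 at h
    simp only [Finset.mem_insert, Finset.mem_singleton] at h
    rcases h with rfl | rfl | rfl | rfl <;> rfl
  · intro h
    have h1 := nmz u
    rw [h] at h1
    push_cast at h1
    obtain ⟨x, y⟩ := u
    simp only at h1
    have hx1 : x ≤ 1 := by nlinarith [sq_nonneg y]
    have hx2 : -1 ≤ x := by nlinarith [sq_nonneg y]
    have hy1 : y ≤ 1 := by nlinarith [sq_nonneg x]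
    have hy2 : -1 ≤ y := by nlinarith [sq_nonneg x]
    interval_cases x <;> interval_cases y <;> first | (norm_num at h1; done) | decide

/-- uniqueness up to units -/
lemma unique_pair {v w v' w' : Gi} (hv : v ≠ 0) (h1 : nm v' = nm v) (h3 : dt v w = 1)
    (h3' : dt v' w' = 1) (h4 : ip v' w' = ip v w) : ∃ u ∈ U4, v' = u * v ∧ w' = u * w := by
  have hg : star v * w = star v' * w' := by
    rw [star_mul_eq, star_mul_eq, h3, h3', h4]
  have hd : ((nm v : ℕ) : Gi) ≠ 0 := by
    intro h0
    have := congrArg nm h0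
    rw [nm_natCast, nm_zero] at this
    have h5 : nm v = 0 := by simpa using this
    exact hv ((nm_eq_zero hD).1 h5)
  have hs := star_mul_self' hD v
  have hs' := star_mul_self' hD v'
  rw [h1] at hs'
  have hc : w * v' = w' * v := by
    apply cancel hd
    calc ((nm v : ℕ) : Gi) * (w * v') = (star v * v) * (w * v') := by rw [hs]
      _ = (star v * w) * (v * v') := by ring
      _ = (star v' * w') * (v * v') := by rw [hg]
      _ = (star v' * v') * (w' * v) := by ring
      _ = ((nm v : ℕ) : Gi) * (w' * v) := by rw [hs']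
  have hone : ((w.im : ℤ) : Gi) * v - ((v.im : ℤ) : Gi) * w = 1 := by
    rw [dtz] at h3
    apply QuadraticAlgebra.ext
    · simp only [QuadraticAlgebra.re_sub, QuadraticAlgebra.re_mul, QuadraticAlgebra.re_intCast,
        QuadraticAlgebra.im_intCast, QuadraticAlgebra.re_one]
      linear_combination h3
    · simp only [QuadraticAlgebra.im_sub, QuadraticAlgebra.im_mul, QuadraticAlgebra.re_intCast,
        QuadraticAlgebra.im_intCast, QuadraticAlgebra.im_one, Int.cast_id]
      ring
  have huv : v' = (((w.im : ℤ) : Gi) * v' - ((v.im : ℤ) : Gi) * w') * v := by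
    calc v' = (((w.im : ℤ) : Gi) * v - ((v.im : ℤ) : Gi) * w) * v' := by rw [hone, one_mul]
      _ = ((w.im : ℤ) : Gi) * v * v' - ((v.im : ℤ) : Gi) * (w * v') := by ring
      _ = ((w.im : ℤ) : Gi) * v * v' - ((v.im : ℤ) : Gi) * (w' * v) := by rw [hc]
      _ = _ := by ring
  have huw : w' = (((w.im : ℤ) : Gi) * v' - ((v.im : ℤ) : Gi) * w') * w := by
    calc w' = (((w.im : ℤ) : Gi) * v - ((v.im : ℤ) : Gi) * w) * w' := by rw [hone, one_mul]
      _ = ((w.im : ℤ) : Gi) * (w' * v) - ((v.im : ℤ) : Gi) * w * w' := by ring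
      _ = ((w.im : ℤ) : Gi) * (w * v') - ((v.im : ℤ) : Gi) * w * w' := by rw [hc]
      _ = _ := by ring
  refine ⟨((w.im : ℤ) : Gi) * v' - ((v.im : ℤ) : Gi) * w', ?_, huv, huw⟩
  rw [mem_U4]
  have h5 := congrArg nm huv
  rw [nm_mul, h1] at h5
  have h6 : 0 < nm v := nm_pos hD hv
  have h7 : 1 * nm v = nm (((w.im : ℤ) : Gi) * v' - ((v.im : ℤ) : Gi) * w') * nm v := by
    rw [one_mul]
    exact h5
  exact (Nat.eq_of_mul_eq_mul_right h6 h7).symm

lemma prim_of_dt {v w : Gi} (h : dt v w = 1) : prim v ∧ prim w := by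
  rw [dtz] at h
  constructor
  · refine Int.isCoprime_iff_gcd_eq_one.1 ⟨w.im, -w.re, ?_⟩
    linear_combination h
  · refine Int.isCoprime_iff_gcd_eq_one.1 ⟨-v.im, v.re, ?_⟩
    linear_combination h

theorem corr : S_CORR := by
  classical
  intro X F hX
  have hmem : ∀ e : Gi × Gi, e ∈ (dedge 0 1 X).filter (fun e => 0 < ip e.1 e.2) ↔
      nm e.1 ∈ Icc 1 ⌊X⌋₊ ∧ nm e.2 ∈ Icc 1 ⌊X⌋₊ ∧ dt e.1 e.2 = 1 ∧ 0 < ip e.1 e.2 := by
    intro e
    have hb : ∀ z : Gi, prim z → (z ∈ pball 0 1 X ↔ nm z ∈ Icc 1 ⌊X⌋₊) := by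
      intro z hz
      unfold pball
      rw [Finset.mem_filter, mem_ball hD, Finset.mem_Icc, Nat.le_floor_iff (by linarith)]
      exact ⟨fun h => h.1, fun h => ⟨h, hz⟩⟩
    unfold dedge
    rw [Finset.mem_filter, Finset.mem_filter, Finset.mem_product]
    constructor
    · rintro ⟨⟨⟨h1, h2⟩, h3⟩, h4⟩
      obtain ⟨p1, p2⟩ := prim_of_dt h3
      exact ⟨(hb _ p1).1 h1, (hb _ p2).1 h2, h3, h4⟩
    · rintro ⟨h1, h2, h3, h4⟩
      obtain ⟨p1, p2⟩ := prim_of_dt h3
      exact ⟨⟨⟨(hb _ p1).2 h1, (hb _ p2).2 h2⟩, h3⟩, h4⟩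
  have hprod : ∀ e : Gi × Gi, dt e.1 e.2 = 1 → 0 < ip e.1 e.2 →
      nm e.1 * nm e.2 = (ip e.1 e.2).toNat ^ 2 + 1 := by
    intro e h3 h4
    have h5 := ip_dt hD e.1 e.2
    rw [h3] at h5
    have h6 : ((ip e.1 e.2).toNat : ℤ) = ip e.1 e.2 := Int.toNat_of_nonneg h4.le
    have : ((nm e.1 * nm e.2 : ℕ) : ℤ) = (((ip e.1 e.2).toNat ^ 2 + 1 : ℕ) : ℤ) := by
      push_cast
      rw [h6, h5]
      ring
    exact_mod_cast this
  have hmaps : ∀ e ∈ (dedge 0 1 X).filter (fun e => 0 < ip e.1 e.2),
      (nm e.1, nm e.2) ∈ (SP ⌊X⌋₊).filter (fun p => p ≠ (1, 1)) := by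
    intro e he
    obtain ⟨h1, h2, h3, h4⟩ := (hmem e).1 he
    have h5 := hprod e h3 h4
    unfold SP
    rw [Finset.mem_filter, Finset.mem_filter, Finset.mem_product]
    refine ⟨⟨⟨h1, h2⟩, _, h5⟩, ?_⟩
    intro hcon
    obtain ⟨c1, c2⟩ := Prod.mk.inj hcon
    rw [c1, c2] at h5
    have h6 : 0 < (ip e.1 e.2).toNat := by omega
    have h7 : 0 < (ip e.1 e.2).toNat ^ 2 := pow_pos h6 2
    omega
  have hfib := Finset.sum_fiberwise_of_maps_to hmaps (fun e => F (nm e.1) (nm e.2))
  rw [← hfib, Finset.mul_sum]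
  refine Finset.sum_congr rfl fun p hp => ?_
  rw [Finset.mem_filter] at hp
  obtain ⟨hp1, hp2⟩ := hp
  unfold SP at hp1
  rw [Finset.mem_filter, Finset.mem_product] at hp1
  obtain ⟨⟨q1, q2⟩, n, hn⟩ := hp1
  have hn0 : 0 < n := by
    rcases Nat.eq_zero_or_pos n with rfl | h
    · exfalso
      apply hp2
      have : p.1 * p.2 = 1 := by simpa using hn
      exact Prod.ext (Nat.eq_one_of_mul_eq_one_right this) (Nat.eq_one_of_mul_eq_one_left this)
    · exact h
  obtain ⟨v, w, a1, a2, a3, a4⟩ := exists_pair n p.1 p.2 hn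
  have hv : v ≠ 0 := by
    rintro rfl
    rw [nm_zero] at a1
    rw [← a1] at hn
    simp at hn
  -- the fibre
  have hset : ((dedge 0 1 X).filter (fun e => 0 < ip e.1 e.2)).filter
      (fun e => (nm e.1, nm e.2) = p) = U4.image (fun u => (u * v, u * w)) := by
    ext e
    rw [Finset.mem_filter, hmem, Finset.mem_image]
    constructor
    · rintro ⟨⟨h1, h2, h3, h4⟩, h5⟩
      have c1 : nm e.1 = p.1 := congrArg Prod.fst h5
      have c2 : nm e.2 = p.2 := congrArg Prod.snd h5
      have h6 := hprod e h3 h4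
      rw [c1, c2, hn] at h6
      have h7 : (ip e.1 e.2).toNat = n := by
        have h8 : (ip e.1 e.2).toNat ^ 2 = n ^ 2 := by omega
        exact Nat.pow_left_injective two_ne_zero h8
      have h8 : ip e.1 e.2 = n := by omega
      obtain ⟨u, hu, hu1, hu2⟩ := unique_pair hv (c1.trans a1.symm) a3 h3 (h8.trans a4.symm)
      exact ⟨u, hu, Prod.ext hu1.symm hu2.symm⟩
    · rintro ⟨u, hu, rfl⟩
      rw [mem_U4] at hu
      have e1 : star (u * v) * (u * w) = star v * w := by
        have : star (u * v) * (u * w) = (star u * u) * (star v * w) := by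
          rw [star_mul']
          ring
        rw [this, star_mul_self' hD, hu, Nat.cast_one, one_mul]
      rw [star_mul_eq, star_mul_eq] at e1
      obtain ⟨e2, e3⟩ := QuadraticAlgebra.mk.inj e1
      have n1 : nm (u * v) = p.1 := by rw [nm_mul, hu, one_mul, a1]
      have n2 : nm (u * w) = p.2 := by rw [nm_mul, hu, one_mul, a2]
      refine ⟨⟨?_, ?_, ?_, ?_⟩, ?_⟩
      · rw [n1]; exact q1
      · rw [n2]; exact q2
      · rw [e3]; exact a3
      · rw [e2, a4]
        exact_mod_cast hn0
      · exact Prod.ext n1 n2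
  have hinj : Function.Injective (fun u : Gi => (u * v, u * w)) := by
    intro u u' h
    have h1 : u * v = u' * v := congrArg Prod.fst h
    rw [mul_comm u, mul_comm u'] at h1
    exact cancel hv h1
  have hcard : (((dedge 0 1 X).filter (fun e => 0 < ip e.1 e.2)).filter
      (fun e => (nm e.1, nm e.2) = p)).card = 4 := by
    rw [hset, Finset.card_image_of_injective _ hinj, card_U4]
  have hconst : ∑ e ∈ ((dedge 0 1 X).filter (fun e => 0 < ip e.1 e.2)).filter
      (fun e => (nm e.1, nm e.2) = p), F (nm e.1) (nm e.2) =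
      ∑ e ∈ ((dedge 0 1 X).filter (fun e => 0 < ip e.1 e.2)).filter
      (fun e => (nm e.1, nm e.2) = p), F p.1 p.2 := by
    refine Finset.sum_congr rfl fun e he => ?_
    rw [Finset.mem_filter] at he
    rw [← he.2]
  rw [hconst, Finset.sum_const, hcard, nsmul_eq_mul]
  norm_num

end Pool.Agent.W305.EC
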